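import Mathlib
import Pool.Agent.TH923.DM.Defs
import Pool.Agent.TH923.DM.KVal

/-!
# Job 1459 (DM-NAB): local approximation of `D` by Galois-semilinear maps
-/

set_option autoImplicit false

namespace Pool.Agent.TH296.DM

open Pool.Agent.TH923.DM

open Pool.Agent.TH923

universe w

section LemB

variable {K L : Type*} [Field K] [Field L] [Algebra K L] {u : L → ℤ}

lemma u_smul (hu : IsOrd u) {a : K} (ha : a ≠ 0) {x : L} (hx : x ≠ 0) :
    u (a • x) = u (algebraMap K L a) + u x := by
  rw [Algebra.smul_def, hu.mul _ _ ((map_ne_zero _).2 ha) hx]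

lemma u_inv_smul (hu : IsOrd u) {a : K} (ha : a ≠ 0) {x : L} (hx : x ≠ 0) :
    u (a⁻¹ • x) = u x - u (algebraMap K L a) := by
  rw [u_smul hu (inv_ne_zero ha) hx, map_inv₀, hu.inv ((map_ne_zero _).2 ha)]
  ring

/-- Splitting a finite family without loss of order. -/
theorem lemB (hu : IsOrd u) {T : Type*} (S : Finset T) : ∀ (n : ℕ) (z : Fin n → L),
    LinearIndependent K z → ∀ c : T → Fin n → K, ∃ (y : Fin n → L) (a : T → Fin n → K),
      LinearIndependent K y ∧ (∀ i, y i ∈ Submodule.span K (Set.range z)) ∧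
      ∀ t ∈ S, (∑ i, a t i • y i = ∑ i, c t i • z i) ∧
        ∀ m : ℝ, GE u (∑ i, c t i • z i) m → ∀ i, GE u (a t i • y i) m := by
  classical
  intro n
  induction n with
  | zero =>
    intro z hz c
    exact ⟨z, c, hz, fun i => i.elim0, fun t _ => ⟨rfl, fun m _ i => i.elim0⟩⟩
  | succ n ih =>
    intro z hz c
    have hzc : z = Fin.cons (z 0) (Fin.tail z) := (Fin.cons_self_tail z).symm
    have hz2 := hz
    rw [hzc, linearIndependent_finCons] at hz2
    obtain ⟨hz', hz0⟩ := hz2
    -- the main claim : the choice of the first vector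
    have key : ∃ d : Fin n → K, ∀ t ∈ S, ∀ m : ℝ, GE u (∑ i, c t i • z i) m →
        GE u (c t 0 • (z 0 + ∑ i, d i • z i.succ)) m := by
      by_cases hS : (S.filter fun t => c t 0 ≠ 0).Nonempty
      · obtain ⟨t0, ht0, hmax⟩ := Finset.exists_max_image _
          (fun t => u ((c t 0)⁻¹ • ∑ i, c t i • z i)) hS
        have ht0' := (Finset.mem_filter.1 ht0).2
        refine ⟨fun i => (c t0 0)⁻¹ * c t0 i.succ, fun t ht m hm => ?_⟩
        have hy : z 0 + ∑ i, ((c t0 0)⁻¹ * c t0 (Fin.succ i)) • z i.succ =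
            (c t0 0)⁻¹ • ∑ i, c t0 i • z i := by
          rw [Fin.sum_univ_succ, smul_add, smul_smul, inv_mul_cancel₀ ht0', one_smul,
            Finset.smul_sum]
          simp only [smul_smul]
        rw [hy]
        by_cases h0 : c t 0 = 0
        · left; rw [h0, zero_smul]
        right
        have hne : ∀ t, c t 0 ≠ 0 → ∑ i, c t i • z i ≠ 0 := by
          intro t h h1
          exact h (Fintype.linearIndependent_iff.1 hz (c t) h1 0)
        have h1 := hmax t (Finset.mem_filter.2 ⟨ht, h0⟩)
        rw [u_smul hu h0 (smul_ne_zero (inv_ne_zero ht0') (hne t0 ht0'))]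
        rw [u_inv_smul hu h0 (hne t h0)] at h1
        have h2 := hm.ord (hne t h0)
        have h3 : u (∑ i, c t i • z i) ≤ u (algebraMap K L (c t 0)) +
          u ((c t0 0)⁻¹ • ∑ i, c t0 i • z i) := by linarith
        exact h2.trans (by exact_mod_cast h3)
      · refine ⟨0, fun t ht m _ => ?_⟩
        have h0 : c t 0 = 0 := by
          by_contra h
          exact hS ⟨t, Finset.mem_filter.2 ⟨ht, h⟩⟩
        left; rw [h0, zero_smul]
    obtain ⟨d, hd⟩ := key
    set y0 : L := z 0 + ∑ i, d i • z i.succ with hy0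
    obtain ⟨y, a, hy1, hy2, hy3⟩ := ih (Fin.tail z) hz' (fun t i => c t i.succ - c t 0 * d i)
    have hrest : ∀ t, ∑ i, (c t (Fin.succ i) - c t 0 * d i) • Fin.tail z i =
        ∑ i, c t i • z i - c t 0 • y0 := by
      intro t
      rw [Fin.sum_univ_succ, hy0, smul_add, Finset.smul_sum]
      simp only [Fin.tail, sub_smul, Finset.sum_sub_distrib, mul_smul]
      abel
    have hspan' : Submodule.span K (Set.range (Fin.tail z)) ≤
        Submodule.span K (Set.range z) := by
      refine Submodule.span_mono ?_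
      rintro _ ⟨i, rfl⟩
      exact ⟨i.succ, rfl⟩
    have hsum : ∑ i, d i • z i.succ ∈ Submodule.span K (Set.range (Fin.tail z)) :=
      Submodule.sum_mem _ fun i _ => Submodule.smul_mem _ _ (Submodule.subset_span ⟨i, rfl⟩)
    refine ⟨Fin.cons y0 y, fun t => Fin.cons (c t 0) (a t), ?_, ?_, ?_⟩
    · rw [linearIndependent_finCons]
      refine ⟨hy1, fun h => hz0 ?_⟩
      have h1 : Submodule.span K (Set.range y) ≤ Submodule.span K (Set.range (Fin.tail z)) := by
        rw [Submodule.span_le]
        rintro _ ⟨i, rfl⟩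
        exact hy2 i
      have h2 := h1 h
      have h3 := Submodule.sub_mem _ h2 hsum
      rwa [hy0, add_sub_cancel_right] at h3
    · intro i
      refine Fin.cases ?_ (fun i => ?_) i
      · rw [Fin.cons_zero]
        exact Submodule.add_mem _ (Submodule.subset_span ⟨0, rfl⟩) (hspan' hsum)
      · rw [Fin.cons_succ]
        exact hspan' (hy2 i)
    · intro t ht
      obtain ⟨h1, h2⟩ := hy3 t ht
      rw [hrest] at h1 h2
      refine ⟨?_, fun m hm i => ?_⟩
      · rw [Fin.sum_univ_succ]
        simp only [Fin.cons_zero, Fin.cons_succ]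
        rw [h1]
        abel
      · have h3 := hd t ht m hm
        refine Fin.cases ?_ (fun i => ?_) i
        · simpa only [Fin.cons_zero] using h3
        · simpa only [Fin.cons_succ] using h2 m (hm.sub hu h3) i

/-- A basis which splits the elements of a finite set without loss of order. -/
theorem exists_basis [FiniteDimensional K L] (hu : IsOrd u) (S : Finset L) :
    ∃ b : Module.Basis (Fin (Module.finrank K L)) K L, ∀ x ∈ S, ∀ i,
      ∀ m : ℝ, GE u x m → GE u (b.repr x i • b i) m := by
  have hn : 0 < Module.finrank K L := Module.finrank_pos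
  have : Nonempty (Fin (Module.finrank K L)) := ⟨⟨0, hn⟩⟩
  let z := Module.finBasis K L
  obtain ⟨y, a, hy, -, h⟩ := lemB (K := K) hu S (Module.finrank K L) z z.linearIndependent
    (fun x i => z.repr x i)
  let b := basisOfLinearIndependentOfCardEqFinrank hy (Fintype.card_fin _)
  have hb : ∀ i, b i = y i := fun i => by
    simp [b]
  refine ⟨b, fun x hx i m hm => ?_⟩
  obtain ⟨h1, h2⟩ := h x hx
  rw [z.sum_repr] at h1 h2
  have h3 : b.repr x i = a x i := by
    have h4 : ∑ j, a x j • b j = x := by
      refine Eq.trans ?_ h1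
      exact Finset.sum_congr rfl fun j _ => by rw [hb j]
    have h5 := b.repr_sum_self (a x)
    rw [h4] at h5
    exact congrFun h5 i
  rw [h3, hb i]
  exact h2 m hm i

end LemB

section Galois

variable {K L : Type*} [Field K] [Field L] [Algebra K L] [FiniteDimensional K L] [IsGalois K L]

/-- Every `K`-linear map is a combination of the automorphisms. -/
theorem exists_nu (Λ : L →ₗ[K] L) : ∃ ν : (L ≃ₐ[K] L) → L, ∀ x, Λ x = ∑ σ, ν σ * σ x := by
  classical
  have h1 : LinearIndependent L (fun σ : L ≃ₐ[K] L => (σ : L →ₐ[K] L).toLinearMap) := by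
    have h2 := linearIndependent_toLinearMap K L L
    refine h2.comp (fun σ : L ≃ₐ[K] L => (σ : L →ₐ[K] L)) ?_
    intro σ τ h
    ext x
    exact DFunLike.congr_fun h x
  have h2 : Fintype.card (L ≃ₐ[K] L) = Module.finrank L (L →ₗ[K] L) := by
    rw [Module.finrank_linearMap_self, ← IsGalois.card_aut_eq_finrank, Nat.card_eq_fintype_card]
  have h3 := h1.span_eq_top_of_card_eq_finrank h2
  have h4 : Λ ∈ Submodule.span L (Set.range fun σ : L ≃ₐ[K] L => (σ : L →ₐ[K] L).toLinearMap) := by
    rw [h3]; trivial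
  obtain ⟨ν, hν⟩ := (Submodule.mem_span_range_iff_exists_fun L).1 h4
  refine ⟨ν, fun x => ?_⟩
  rw [← hν]
  simp

end Galois

section Main

variable {k : Type w} [Field k] {L : Type w} [Field L] [Algebra (RatFunc k) L]
  [FiniteDimensional (RatFunc k) L] [IsGalois (RatFunc k) L]

/-- The decomposition of `D` with respect to a basis. -/
theorem exists_dec (D : Derivation ℤ L L)
    (hD : ∀ f : RatFunc k, D (algebraMap (RatFunc k) L f) = algebraMap (RatFunc k) L (Y0.ratD k f))
    {n : ℕ} (b : Module.Basis (Fin n) (RatFunc k) L) :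
    ∃ ν : (L ≃ₐ[RatFunc k] L) → L, ∀ x, D x - ∑ σ, ν σ * σ x =
      ∑ i, algebraMap (RatFunc k) L (Y0.ratD k (b.repr x i)) * b i := by
  let Λ : L →ₗ[RatFunc k] L := b.constr ℕ fun i => D (b i)
  obtain ⟨ν, hν⟩ := exists_nu Λ
  refine ⟨ν, fun x => ?_⟩
  rw [← hν, Module.Basis.constr_apply_fintype]
  conv_lhs => rw [← b.sum_repr x]
  rw [map_sum]
  rw [sub_eq_iff_eq_add, ← Finset.sum_add_distrib]
  refine Finset.sum_congr rfl fun i _ => ?_
  rw [b.equivFun_apply, b.repr_sum_self, Algebra.smul_def (b.repr x i) (b i),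
    Derivation.leibniz, hD, Algebra.smul_def (b.repr x i) (D (b i)), smul_eq_mul, smul_eq_mul]
  ring

end Main

theorem lemNAB : S_NAB.{w} := by
  intro p _ k _ _ _ L _ _ _ _ D hD u hu hc S
  obtain ⟨b, hb⟩ := exists_basis (K := RatFunc k) hu S
  refine ⟨fun a ha c => ?_, fun hX => ?_⟩
  · set e : ℤ := u (algebraMap (RatFunc k) L (RatFunc.X - RatFunc.C a)) with he
    set c' : ℤ := ⌈c⌉ with hc'
    have hXa : (RatFunc.X - RatFunc.C a : RatFunc k) ≠ 0 := by
      intro h
      rw [h, map_zero] at he
      -- the order of zero is a junk value : use a polynomial argument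
      have h1 : (algebraMap (Polynomial k) (RatFunc k)) (Polynomial.X - Polynomial.C a) = 0 := by
        rw [map_sub, RatFunc.algebraMap_X, RatFunc.algebraMap_C, h]
      exact RatFunc.algebraMap_ne_zero (Polynomial.X_sub_C_ne_zero a) h1
    let w : Fin (Module.finrank (RatFunc k) L) → (RatFunc k)ˣ := fun i =>
      (Units.mk0 _ hXa) ^ (-((u (b i) - c') / e))
    let b' := b.unitsSMul w
    have hbi : ∀ i, b i ≠ 0 := fun i => b.ne_zero i
    have hub : ∀ i, u (b' i) = u (b i) - ((u (b i) - c') / e) * e := by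
      intro i
      have h1 : b' i = ((RatFunc.X - RatFunc.C a) ^ (-((u (b i) - c') / e)) : RatFunc k) • b i := by
        rw [Module.Basis.unitsSMul_apply]
        rw [Units.smul_def]
        simp [w]
      rw [h1, u_smul hu (zpow_ne_zero _ hXa) (hbi i), map_zpow₀,
        hu.zpow ((map_ne_zero _).2 hXa)]
      ring
    have hb'0 : ∀ i, b' i ≠ 0 := fun i => b'.ne_zero i
    have hub1 : ∀ i, c' ≤ u (b' i) := by
      intro i
      rw [hub]
      have := Int.ediv_mul_le (u (b i) - c') ha.ne'
      linarith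
    have hub2 : ∀ i, u (b' i) < c' + e := by
      intro i
      rw [hub]
      have := Int.lt_ediv_add_one_mul_self (u (b i) - c') ha
      linarith
    have hprod : ∀ x i, b'.repr x i • b' i = b.repr x i • b i := by
      intro x i
      rw [Module.Basis.repr_unitsSMul, Module.Basis.unitsSMul_apply, Units.smul_def,
        Units.smul_def, smul_smul, smul_eq_mul, mul_right_comm, ← Units.val_mul,
        inv_mul_cancel, Units.val_one, one_mul]
    obtain ⟨ν, hν⟩ := exists_dec D hD b'
    refine ⟨ν, fun x hx hx0 => ?_⟩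
    rw [hν]
    have hterm : ∀ i, GE u (algebraMap (RatFunc k) L (Y0.ratD k (b'.repr x i)) * b' i)
        (u x - e) ∧ (c ≤ u x →
          GE u (algebraMap (RatFunc k) L (Y0.ratD k (b'.repr x i)) * b' i) c) := by
      intro i
      set α := b'.repr x i with hα
      by_cases hδ : Y0.ratD k α = 0
      · rw [hδ, map_zero, zero_mul]
        exact ⟨GE.zero _, fun _ => GE.zero _⟩
      have hα0 : α ≠ 0 := by
        intro h
        apply hδ
        rw [h]
        have := map_zero (Y0.ratDer k)
        rwa [Y0.ratDer_apply] at this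
      have h1 : GE u (α • b' i) (u x) := by
        rw [hα, hprod]
        exact hb x hx i _ (GE.self x)
      have h2 : (u x : ℝ) ≤ u (α • b' i) := h1.ord (smul_ne_zero hα0 (hb'0 i))
      have h3 : u x ≤ u (α • b' i) := by exact_mod_cast h2
      rw [u_smul hu hα0 (hb'0 i), uK_fin hu hc a ha α hα0] at h3
      have h4 : u (algebraMap (RatFunc k) L (Y0.ratD k α) * b' i) =
          Y0.ratOrd (some a) (Y0.ratD k α) * e + u (b' i) := by
        rw [hu.mul _ _ ((map_ne_zero _).2 hδ) (hb'0 i), uK_fin hu hc a ha _ hδ]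
      have h5 := Y0.ratD_ord (some a) α hα0 hδ
      refine ⟨Or.inr ?_, fun hcx => Or.inr ?_⟩
      · have h6 : u x - e ≤ u (algebraMap (RatFunc k) L (Y0.ratD k α) * b' i) := by
          rw [h4]
          nlinarith
        exact_mod_cast h6
      · have h6 : c' ≤ u x := Int.ceil_le.2 hcx
        have h7 : 0 ≤ Y0.ratOrd (some a) α := by
          by_contra hneg
          have h8 : Y0.ratOrd (some a) α ≤ -1 := by omega
          have h9 := hub2 i
          nlinarith
        have h8 := Y0.ratD_ord' (some a) α hα0 hδ h7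
        have h9 : c' ≤ u (algebraMap (RatFunc k) L (Y0.ratD k α) * b' i) := by
          rw [h4]
          have := hub1 i
          nlinarith
        exact (Int.le_ceil c).trans (by exact_mod_cast h9)
    exact ⟨GE.sum hu _ _ fun i _ => (hterm i).1, fun hcx => GE.sum hu _ _ fun i _ =>
      (hterm i).2 hcx⟩
  · obtain ⟨ν, hν⟩ := exists_dec D hD b
    refine ⟨ν, fun x hx hx0 => ?_⟩
    rw [hν]
    refine GE.sum hu _ _ fun i _ => ?_
    set α := b.repr x i with hα
    by_cases hδ : Y0.ratD k α = 0
    · rw [hδ, map_zero, zero_mul]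
      exact GE.zero _
    have hα0 : α ≠ 0 := by
      intro h
      apply hδ
      rw [h]
      have := map_zero (Y0.ratDer k)
      rwa [Y0.ratDer_apply] at this
    have hbi : b i ≠ 0 := b.ne_zero i
    have h2 : (u x : ℝ) ≤ u (α • b i) :=
      (hb x hx i _ (GE.self x)).ord (smul_ne_zero hα0 hbi)
    have h3 : u x ≤ u (α • b i) := by exact_mod_cast h2
    rw [u_smul hu hα0 hbi, uK_inf hu hc hX α hα0] at h3
    right
    have h4 : u (algebraMap (RatFunc k) L (Y0.ratD k α) * b i) =
        (Y0.ratD k α).intDegree * u (algebraMap (RatFunc k) L RatFunc.X) + u (b i) := by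
      rw [hu.mul _ _ ((map_ne_zero _).2 hδ) hbi, uK_inf hu hc hX _ hδ]
    have h5 := Y0.ratD_ord_inf α hα0 hδ
    have h6 : u x ≤ u (algebraMap (RatFunc k) L (Y0.ratD k α) * b i) := by
      rw [h4]
      nlinarith
    exact_mod_cast h6

end Pool.Agent.TH296.DM
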